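import Mathlib
import Pool.Graph.R_pool_sql_team_ae5b0c61.H82.WThetaDefs

/-! Countably compact closed subsets of weakly theta-refinable spaces are compact, and closed
subspaces of weakly theta-refinable spaces are weakly theta-refinable. -/

set_option autoImplicit false

open Set Filter Topology

namespace Pool.Agent.KS6_21.WTR

open Pool.Agent.H82.WTheta (WeaklyThetaRefinable)

universe u v

/-- families of open sets no finite subfamily of which covers `K` -/
def Bad {X : Type u} [TopologicalSpace X] (K : Set X) : Set (Set (Set X)) :=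
  {𝒲 | (∀ W ∈ 𝒲, IsOpen W) ∧ ∀ t ⊆ 𝒲, t.Finite → ¬ K ⊆ ⋃₀ t}

theorem exists_maximal {X : Type u} [TopologicalSpace X] {K : Set X} {𝒲 : Set (Set X)}
    (h : 𝒲 ∈ Bad K) : ∃ m, 𝒲 ⊆ m ∧ Maximal (· ∈ Bad K) m := by
  refine zorn_subset_nonempty (Bad K) (fun c hc hch hne => ⟨⋃₀ c, ⟨?_, ?_⟩, fun s hs =>
    subset_sUnion_of_mem hs⟩) 𝒲 h
  · rintro W ⟨s, hs, hW⟩
    exact (hc hs).1 W hW
  · intro t ht hfin hK
    obtain ⟨i, hi, hsub⟩ :=
      hch.directedOn.exists_mem_subset_of_finite_of_subset_sUnion hne hfin ht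
    exact (hc hi).2 t hsub hfin hK

theorem compact_of_cc {X : Type u} [TopologicalSpace X] (hX : WeaklyThetaRefinable X) {K : Set X}
    (hK : IsClosed K) (hc : IsCountablyCompact K) : IsCompact K := by
  classical
  refine isCompact_of_finite_subcover fun {ι} U hU hKU => ?_
  by_contra hfin
  have h0 : range U ∈ Bad K := by
    refine ⟨?_, fun t ht htf hKt => hfin ?_⟩
    · rintro _ ⟨i, rfl⟩
      exact hU i
    · choose i hi using fun V : t => ht V.2
      have := htf.to_subtype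
      have := Fintype.ofFinite t
      refine ⟨Finset.univ.image i, fun x hx => ?_⟩
      obtain ⟨V, hV, hxV⟩ := hKt hx
      refine mem_iUnion₂.2 ⟨i ⟨V, hV⟩, Finset.mem_image_of_mem _ (Finset.mem_univ _), ?_⟩
      rw [hi ⟨V, hV⟩]
      exact hxV
  obtain ⟨m, hm, hmax⟩ := exists_maximal h0
  have f0 : ∀ W ∈ m, ¬ K ⊆ W := fun W hW h =>
    hmax.prop.2 {W} (singleton_subset_iff.2 hW) (finite_singleton W) (by simpa using h)
  have f1 : ∀ G, IsOpen G → G ∉ m → ∃ t ⊆ m, t.Finite ∧ K ⊆ G ∪ ⋃₀ t := by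
    intro G hG hGm
    by_contra hcon
    push Not at hcon
    refine hGm (hmax.2 (y := insert G m) ⟨?_, ?_⟩ (subset_insert _ _) (mem_insert _ _))
    · rintro W (rfl | hW)
      · exact hG
      · exact hmax.prop.1 W hW
    · intro t ht htf hKt
      refine hcon (t \ {G}) (fun V hV => (ht hV.1).resolve_left fun h => hV.2 h)
        (htf.subset sdiff_subset) fun x hx => ?_
      obtain ⟨V, hV, hxV⟩ := hKt hx
      by_cases h : V = G
      · exact Or.inl (h ▸ hxV)
      · exact Or.inr ⟨V, ⟨hV, h⟩, hxV⟩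
  have f2 : ∀ t ⊆ m, t.Finite → ⋃₀ t ∈ m := by
    intro t ht htf
    by_contra h
    obtain ⟨t', h1, h2, h3⟩ := f1 _ (isOpen_sUnion fun V hV => hmax.prop.1 V (ht hV)) h
    exact hmax.prop.2 (t ∪ t') (union_subset ht h1) (htf.union h2) (by rwa [sUnion_union])
  have f1' : ∀ G, IsOpen G → G ∉ m → ∃ w ∈ m, K ⊆ G ∪ w := fun G hG hGm => by
    obtain ⟨t, h1, h2, h3⟩ := f1 G hG hGm
    exact ⟨_, f2 t h1 h2, h3⟩
  have f2' : ∀ V ∈ m, ∀ W ∈ m, V ∪ W ∈ m := fun V hV W hW => by
    have := f2 {V, W} (insert_subset hV (singleton_subset_iff.2 hW)) (toFinite _)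
    rwa [sUnion_pair] at this
  have f3 : ∀ w : ℕ → Set X, (∀ n, w n ∈ m) → (⋃ n, w n) ∈ m := by
    intro w hw
    by_contra h
    obtain ⟨v, hv, h3⟩ := f1' _ (isOpen_iUnion fun n => hmax.prop.1 _ (hw n)) h
    obtain ⟨s, hs⟩ := hc.elim_finite_subcover (ι := Option ℕ) (U := fun i => i.elim v w)
      (fun i => by
        cases i with
        | none => exact hmax.prop.1 _ hv
        | some n => exact hmax.prop.1 _ (hw n)) fun x hx => by
          rcases h3 hx with h4 | h4
          · obtain ⟨n, hn⟩ := mem_iUnion.1 h4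
            exact mem_iUnion.2 ⟨some n, hn⟩
          · exact mem_iUnion.2 ⟨none, h4⟩
    refine hmax.prop.2 ((fun i : Option ℕ => i.elim v w) '' s) ?_ (s.finite_toSet.image _)
      (by rwa [sUnion_image])
    rintro _ ⟨i, -, rfl⟩
    cases i with
    | none => exact hv
    | some n => exact hw n
  obtain ⟨𝒱, v1, v2⟩ := hX (insert Kᶜ (range U)) (by
    rintro W (rfl | ⟨i, rfl⟩)
    · exact hK.isOpen_compl
    · exact hU i) (eq_univ_of_forall fun x => by
    by_cases hx : x ∈ K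
    · obtain ⟨i, hi⟩ := mem_iUnion.1 (hKU hx)
      exact ⟨_, Or.inr ⟨i, rfl⟩, hi⟩
    · exact ⟨_, Or.inl rfl, hx⟩)
  have v3 : ∀ n, ∀ V ∈ 𝒱 n, V ∈ m := by
    intro n V hV
    by_contra h
    obtain ⟨w, hw, h3⟩ := f1' V (v1 n V hV).1 h
    obtain ⟨W, (rfl | ⟨i, rfl⟩), hVW⟩ := (v1 n V hV).2
    · exact f0 w hw fun x hx => (h3 hx).resolve_left fun h4 => hVW h4 hx
    · exact f0 _ (f2' _ (hm ⟨i, rfl⟩) _ hw) fun x hx => (h3 hx).imp (fun h4 => hVW h4) id
  let N : ℕ → X → Set (Set X) := fun n x => {V | V ∈ 𝒱 n ∧ x ∈ V}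
  let O : ℕ → ℕ → Set X := fun n k => {x | (k : ℕ∞) ≤ (N n x).encard}
  have n1 : ∀ n x t, t ⊆ N n x → t.Finite → IsOpen (⋂₀ t) ∧ x ∈ ⋂₀ t ∧
      ∀ z ∈ ⋂₀ t, t ⊆ N n z := fun n x t h1 h2 =>
    ⟨h2.isOpen_sInter fun V hV => (v1 n V (h1 hV).1).1, fun V hV => (h1 hV).2,
      fun z hz V hV => ⟨(h1 hV).1, hz V hV⟩⟩
  have hO : ∀ n k, IsOpen (O n k) := fun n k => isOpen_iff_forall_mem_open.2 fun x hx => by
    obtain ⟨t, h1, h2⟩ := exists_subset_encard_eq (show (k : ℕ∞) ≤ (N n x).encard from hx)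
    obtain ⟨g1, g2, g3⟩ := n1 n x t h1 (finite_of_encard_eq_coe h2)
    exact ⟨_, fun z hz => h2.ge.trans (encard_le_encard (g3 z hz)), g1, g2⟩
  have main : ∀ n, ∃ w ∈ m, ∀ x ∈ K, x ∉ w → ¬ ((N n x).Nonempty ∧ (N n x).Finite) := by
    intro n
    by_cases hn : ∀ k, O n k ∉ m
    · choose w hw hKw using fun k => f1' _ (hO n k) (hn k)
      refine ⟨_, f3 w hw, fun x hx hxw h => ?_⟩
      obtain ⟨j, hj⟩ := h.2.exists_encard_eq_coe
      have h4 : x ∈ O n (j + 1) := (hKw (j + 1) hx).resolve_right fun h5 =>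
        hxw (mem_iUnion.2 ⟨_, h5⟩)
      simp only [O, mem_ofPred_eq, hj] at h4
      exact absurd h4 (not_le.2 (by exact_mod_cast j.lt_succ_self))
    · push Not at hn
      obtain ⟨k, hk, hkm⟩ : ∃ k, O n k ∈ m ∧ ∀ j < k, O n j ∉ m :=
        ⟨Nat.find hn, Nat.find_spec hn, fun j hj => Nat.find_min hn hj⟩
      obtain ⟨j, rfl⟩ : ∃ j, k = j + 1 := by
        rcases k with _ | j
        · exact absurd (fun x _ => by simp [O]) (f0 _ hk)
        · exact ⟨j, rfl⟩
      obtain ⟨w', hw', h3⟩ := f1' _ (hO n j) (hkm j j.lt_succ_self)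
      have hw : w' ∪ O n (j + 1) ∈ m := f2' _ hw' _ hk
      have hE : ∀ x ∈ K, x ∉ w' ∪ O n (j + 1) → (N n x).encard = j := fun x hx hxw => by
        have h5 : (N n x).encard < ((j + 1 : ℕ) : ℕ∞) := not_le.1 fun h4 => hxw (Or.inr h4)
        refine le_antisymm ((ENat.lt_add_one_iff (ENat.natCast_ne_top _)).1 (by exact_mod_cast h5))
          ((h3 hx).resolve_right fun h4 => hxw (Or.inl h4))
      rcases j with _ | j
      · refine ⟨_, hw, fun x hx hxw h => ?_⟩
        have := hE x hx hxw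
        rw [Nat.cast_zero, encard_eq_zero] at this
        exact h.1.ne_empty this
      · exfalso
        set w := w' ∪ O n (j + 1 + 1) with hwdef
        obtain ⟨E, hEm⟩ : ∃ E : Set X, ∀ x, x ∈ E ↔ x ∈ K ∧ x ∉ w := ⟨{x | x ∈ K ∧ x ∉ w}, fun _ => Iff.rfl⟩
        have hE' : ∀ x ∈ E, (N n x).encard = (j + 1 : ℕ) := fun x hx =>
          hE x ((hEm x).1 hx).1 ((hEm x).1 hx).2
        have g : ∀ x ∈ E, IsOpen (⋂₀ N n x) ∧ x ∈ ⋂₀ N n x ∧
            ∀ z ∈ E, z ∈ ⋂₀ N n x → N n z = N n x := fun x hx => by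
          have hf := finite_of_encard_eq_coe (hE' x hx)
          obtain ⟨g1, g2, g3⟩ := n1 n x _ Subset.rfl hf
          refine ⟨g1, g2, fun z hz hzx => ?_⟩
          exact (hf.eq_of_subset_of_encard_le (g3 z hzx) (by rw [hE' x hx, hE' z hz])).symm
        have hfinN : (N n '' E).Finite := by
          by_contra hinf
          have hinf : (N n '' E).Infinite := hinf
          let a := hinf.natEmbedding
          choose x hxE hxa using fun i => (a i).2
          obtain ⟨s, hs⟩ := hc.elim_finite_subcover (ι := Option ℕ)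
            (U := fun i => i.elim (w ∪ ⋃ y ∈ {y | y ∈ E ∧ ∀ i, N n y ≠ a i}, ⋂₀ N n y)
              fun i => ⋂₀ N n (x i))
            (fun i => by
              cases i with
              | none =>
                exact (hmax.prop.1 _ hw).union (isOpen_biUnion fun y hy => (g y hy.1).1)
              | some i => exact (g _ (hxE i)).1) fun y hy => by
                by_cases h4 : y ∈ w
                · exact mem_iUnion.2 ⟨none, Or.inl h4⟩
                have h5 : y ∈ E := (hEm y).2 ⟨hy, h4⟩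
                by_cases h6 : ∃ i, N n y = a i
                · obtain ⟨i, hi⟩ := h6
                  refine mem_iUnion.2 ⟨some i, ?_⟩
                  change y ∈ ⋂₀ N n (x i)
                  rw [hxa i, ← hi]
                  exact (g y h5).2.1
                · push Not at h6
                  exact mem_iUnion.2 ⟨none, Or.inr (mem_biUnion (show y ∈ {y | y ∈ E ∧ ∀ i, N n y ≠ a i} from ⟨h5, h6⟩) (g y h5).2.1)⟩
          obtain ⟨i, hi⟩ : ∃ i : ℕ, some i ∉ s := by
            by_contra hcon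
            push Not at hcon
            exact Set.infinite_range_of_injective (Option.some_injective ℕ)
              (s.finite_toSet.subset (by
                rintro _ ⟨i, rfl⟩
                exact hcon i))
          obtain ⟨i', hi's, h4⟩ := mem_iUnion₂.1 (hs ((hEm _).1 (hxE i)).1)
          cases i' with
          | none =>
            rcases h4 with h4 | h4
            · exact ((hEm _).1 (hxE i)).2 h4
            · obtain ⟨y, hy, h5⟩ := mem_iUnion₂.1 h4
              exact hy.2 i (((g y hy.1).2.2 _ (hxE i) h5).symm.trans (hxa i))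
          | some i' =>
            have h5 := (g _ (hxE i')).2.2 _ (hxE i) h4
            rw [hxa i, hxa i'] at h5
            exact hi (a.injective (Subtype.ext h5) ▸ hi's)
        choose! V hV using fun (T : Set (Set X)) (hT : T ∈ N n '' E) =>
          show ∃ V, V ∈ T by
            obtain ⟨x, hx, rfl⟩ := hT
            have h4 := hE' x hx
            by_contra hcon
            push Not at hcon
            rw [eq_empty_of_forall_notMem hcon, encard_empty] at h4
            exact absurd h4.symm (by exact_mod_cast Nat.succ_ne_zero j)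
        refine hmax.prop.2 (insert w (V '' (N n '' E))) ?_ ((hfinN.image _).insert _)
          fun x hx => ?_
        · rintro W (rfl | ⟨T, hT, rfl⟩)
          · exact hw
          · have h4 := hV T hT
            obtain ⟨x, hx, rfl⟩ := hT
            exact v3 n _ h4.1
        · by_cases h4 : x ∈ w
          · exact ⟨w, mem_insert _ _, h4⟩
          · have h5 : x ∈ E := (hEm x).2 ⟨hx, h4⟩
            exact ⟨_, Or.inr ⟨_, ⟨x, h5, rfl⟩, rfl⟩, (hV _ ⟨x, h5, rfl⟩).2⟩
  choose w hw h4 using main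
  refine f0 _ (f3 w hw) fun x hx => ?_
  by_contra hxw
  obtain ⟨n, h5⟩ := v2 x
  exact h4 n x hx (fun h6 => hxw (mem_iUnion.2 ⟨n, h6⟩)) h5

theorem closed_sub {X : Type u} [TopologicalSpace X] (hX : WeaklyThetaRefinable X) {F : Set X}
    (hF : IsClosed F) : WeaklyThetaRefinable F := by
  intro 𝒰 hU hcov
  obtain ⟨𝒱, v1, v2⟩ := hX (insert Fᶜ {G | IsOpen G ∧ (Subtype.val ⁻¹' G : Set F) ∈ 𝒰}) (by
    rintro W (rfl | hW)
    · exact hF.isOpen_compl
    · exact hW.1) (eq_univ_of_forall fun x => by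
    by_cases hx : x ∈ F
    · obtain ⟨U, hU', hxU⟩ : (⟨x, hx⟩ : F) ∈ ⋃₀ 𝒰 := hcov ▸ mem_univ _
      obtain ⟨G, hG, rfl⟩ := isOpen_induced_iff.1 (hU U hU')
      exact ⟨G, Or.inr ⟨hG, hU'⟩, hxU⟩
    · exact ⟨_, Or.inl rfl, hx⟩)
  refine ⟨fun n => (fun V => (Subtype.val ⁻¹' V : Set F)) '' {V | V ∈ 𝒱 n ∧ (V ∩ F).Nonempty},
    ?_, fun x => ?_⟩
  · rintro n _ ⟨V, ⟨hV, y, hyV, hyF⟩, rfl⟩
    refine ⟨(v1 n V hV).1.preimage continuous_subtype_val, ?_⟩
    obtain ⟨W, (rfl | hW), hVW⟩ := (v1 n V hV).2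
    · exact absurd hyF (hVW hyV)
    · exact ⟨_, hW.2, preimage_mono hVW⟩
  · obtain ⟨n, ⟨V, hV, hxV⟩, hfin⟩ := v2 x.1
    refine ⟨n, ⟨_, ⟨V, ⟨hV, x.1, hxV, x.2⟩, rfl⟩, hxV⟩, (hfin.image
      (fun V => (Subtype.val ⁻¹' V : Set F))).subset ?_⟩
    rintro _ ⟨⟨V', ⟨h1, -⟩, rfl⟩, h2⟩
    exact ⟨V', ⟨h1, h2⟩, rfl⟩

end Pool.Agent.KS6_21.WTR
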