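import Pool.Agent.KS6_21.WTR.Maps

/-! A closed map with countable fibres of a Tychonoff space which is a union of countably many
discrete subspaces onto a Tychonoff space which is not weakly theta-refinable. The spaces and the
map are those of the module `Pool.Graph.R_pool_sql_team_ae5b0c61.H82.Walks`. -/

set_option autoImplicit false

open Set Filter Topology

namespace Pool.Agent.KS6_21.WTR

open Pool.Agent.H82.WTheta (WeaklyThetaRefinable)
open Pool.Agent.H82.Walks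

universe u v

/-- A space which is a union of countably many discrete subspaces. -/
def SigmaDiscrete (X : Type u) [TopologicalSpace X] : Prop :=
  ∃ D : ℕ → Set X, (⋃ n, D n) = univ ∧ ∀ n, DiscreteTopology (D n)

theorem SigmaDiscrete.wtr {X : Type u} [TopologicalSpace X] (h : SigmaDiscrete X) :
    WeaklyThetaRefinable X := by
  obtain ⟨D, hD, hd⟩ := h
  intro 𝒰 hU hc
  have h1 : ∀ n, ∀ x ∈ D n, ∃ V, IsOpen V ∧ V ∩ D n = {x} := fun n x hx => by
    have := hd n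
    obtain ⟨V, hV, hV'⟩ := isOpen_induced_iff.1 (isOpen_discrete ({⟨x, hx⟩} : Set (D n)))
    refine ⟨V, hV, ?_⟩
    ext z
    constructor
    · rintro ⟨h1, h2⟩
      have : (⟨z, h2⟩ : D n) ∈ ({⟨x, hx⟩} : Set (D n)) := by
        rw [← hV']
        exact h1
      exact congrArg Subtype.val this
    · rintro rfl
      refine ⟨?_, hx⟩
      have : (⟨z, hx⟩ : D n) ∈ Subtype.val ⁻¹' V := by
        rw [hV']
        rfl
      exact this
  have h2 : ∀ x : X, ∃ U ∈ 𝒰, x ∈ U := fun x => by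
    obtain ⟨U, h1, h2⟩ : x ∈ ⋃₀ 𝒰 := hc ▸ mem_univ x
    exact ⟨U, h1, h2⟩
  choose! V hVo hV using h1
  choose U hU1 hU2 using h2
  refine ⟨fun n => (fun x => V n x ∩ U x) '' D n, ?_, fun x => ?_⟩
  · rintro n _ ⟨x, hx, rfl⟩
    exact ⟨(hVo n x hx).inter (hU _ (hU1 x)), _, hU1 x, inter_subset_right⟩
  · obtain ⟨n, hn⟩ : ∃ n, x ∈ D n := mem_iUnion.1 (hD ▸ mem_univ x)
    have h3 : x ∈ V n x ∩ D n := (hV n x hn).symm ▸ rfl
    refine ⟨n, ⟨_, ⟨x, hn, rfl⟩, h3.1, hU2 x⟩, (finite_singleton (V n x ∩ U x)).subset ?_⟩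
    rintro _ ⟨⟨z, hz, rfl⟩, h4, -⟩
    have h5 : x ∈ ({z} : Set X) := (hV n z hz) ▸ ⟨h4, hn⟩
    rw [mem_singleton_iff.1 h5]
    rfl

theorem SigmaDiscrete.sub {X : Type u} [TopologicalSpace X] (h : SigmaDiscrete X) (S : Set X) :
    SigmaDiscrete S := by
  obtain ⟨D, hD, hd⟩ := h
  refine ⟨fun n => Subtype.val ⁻¹' D n, ?_, fun n => ?_⟩
  · rw [← preimage_iUnion, hD, preimage_univ]
  · have := hd n
    refine DiscreteTopology.of_continuous_injective
      (f := fun x : (Subtype.val ⁻¹' D n : Set S) => (⟨x.1.1, x.2⟩ : D n)) ?_ ?_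
    · exact (continuous_subtype_val.comp continuous_subtype_val).subtype_mk _
    · intro a b hab
      exact Subtype.ext (Subtype.ext (by simpa using hab))

theorem example_closed : ∃ (X Y : Type) (_ : TopologicalSpace X) (_ : TopologicalSpace Y)
    (f : X → Y), T35Space X ∧ T35Space Y ∧ SigmaDiscrete X ∧ Continuous f ∧
      Function.Surjective f ∧ IsClosedMap f ∧ (∀ y, (f ⁻¹' {y}).Countable) ∧
      ¬ WeaklyThetaRefinable Y := by
  obtain ⟨c, c0, c1, c2⟩ := exists_c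
  let R : S × ℕ → S × ℕ → Prop := fun q p => q.2 + c q.1.1 p.1.1 = p.2
  have h1 : ∀ p, R p p := fun p => by simp only [R, c0, add_zero]
  have h2 : ∀ q p : S × ℕ, q.1.1 ≤ p.1.1 → ∃ l < q.1.1, ∀ r : S × ℕ, l < r.1.1 → r.1.1 ≤ q.1.1 →
      R r q → (R r p ↔ R q p) := by
    intro q p h
    obtain ⟨l, hl, hb⟩ := c2 _ _ q.1.2 h
    refine ⟨l, hl, fun r k1 k2 k3 => ?_⟩
    simp only [R] at k3 ⊢
    rw [hb _ k1 k2]
    omega
  have h3 : ∀ q p : S × ℕ, q.1.1 = p.1.1 → R q p → q = p := by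
    intro q p h k
    simp only [R, h, c0, add_zero] at k
    exact Prod.ext (Subtype.ext h) k
  let tX := topo (Prod.fst : S × ℕ → S) R
  let tY := topo (id : S → S) fun _ _ => True
  refine ⟨S × ℕ, S, tX, tY, Prod.fst, t35 _ R h1 h2 h3, t35 _ _ (fun _ => trivial)
    (fun q p _ => ?_) (fun q p h _ => Subtype.ext h), ?_, ?_, Prod.fst_surjective, ?_, ?_, not_wtr⟩
  · obtain ⟨l, hl, -⟩ := q.2 ∅ countable_empty (empty_subset _)
    exact ⟨l, hl, fun _ _ _ _ => Iff.rfl⟩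
  · refine ⟨fun n => {p | p.2 = n}, eq_univ_of_forall fun x => mem_iUnion.2 ⟨x.2, rfl⟩,
      fun n => ?_⟩
    have key : ∀ x : {p : S × ℕ | p.2 = n}, ∃ V : Set (S × ℕ), @IsOpen _ tX V ∧ x.1 ∈ V ∧
        ∀ q ∈ V, q.2 = n → q = x.1 := by
      rintro ⟨x, hx⟩
      obtain ⟨l, hl, -⟩ := x.1.2 ∅ countable_empty (empty_subset _)
      refine ⟨{q : S × ℕ | l < q.1.1 ∧ q.1.1 ≤ x.1.1 ∧ R q x}, (clopen_B _ R h2 x _).2,
        ⟨hl, le_rfl, h1 x⟩, fun q hq hqn => ?_⟩
      refine h3 _ _ ?_ hq.2.2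
      by_contra hne
      have k1 := c1 _ _ (lt_of_le_of_ne hq.2.1 hne)
      have k3 := hq.2.2
      simp only [R] at k3
      simp only [mem_ofPred_eq] at hx
      omega
    refine (@discreteTopology_iff_isOpen_singleton _ (@instTopologicalSpaceSubtype _ _ tX)).2
      fun x => ?_
    obtain ⟨V, hV, hx, hV'⟩ := key x
    refine (@isOpen_induced_iff _ _ tX _ _).2 ⟨V, hV, ?_⟩
    ext z
    constructor
    · intro hz
      exact Subtype.ext (hV' _ hz z.2)
    · rintro rfl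
      exact hx
  · refine @continuous_def _ _ tX tY _ |>.2 fun U hU p hp => ?_
    obtain ⟨β, hβ, hb⟩ := hU p.1 hp
    exact ⟨β, hβ, fun q k1 k2 _ => hb q.1 k1 k2 trivial⟩
  · intro C hC
    refine (@isOpen_compl_iff _ _ tY).1 fun δ hδ => ?_
    have hC' := (@isOpen_compl_iff _ _ tX).2 hC
    have := fun n : ℕ => hC' (δ, n) fun h => hδ ⟨_, h, rfl⟩
    choose β hβ hb using this
    obtain ⟨l, hl, hl'⟩ := δ.2 (range β) (countable_range _) (by
      rintro _ ⟨n, rfl⟩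
      exact hβ n)
    refine ⟨l, hl, ?_⟩
    rintro _ k1 k2 - ⟨q, hq, rfl⟩
    exact hb (q.2 + c q.1.1 δ.1) q ((hl' _ ⟨_, rfl⟩).trans_lt k1) k2 rfl hq
  · intro y
    refine (countable_range fun n : ℕ => ((y, n) : S × ℕ)).mono ?_
    rintro ⟨a, n⟩ h
    exact ⟨n, Prod.ext (show y = a from (mem_singleton_iff.1 h).symm) rfl⟩

end Pool.Agent.KS6_21.WTR
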