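import Pool.Agent.KS6_21.WTR.Compact
import Pool.Graph.R_pool_sql_team_ae5b0c61.H82.Walks
import Pool.Graph.R_pool_sql_team_ae5b0c61.H82.WThetaPerfect

/-! Closed maps of weakly theta-refinable spaces. -/

set_option autoImplicit false

open Set Filter Topology

namespace Pool.Agent.KS6_21.WTR

open Pool.Agent.H82.WTheta (WeaklyThetaRefinable)

universe u v

theorem of_discrete {Y : Type v} [TopologicalSpace Y] {Y₀ : Set Y}
    (hd : ∀ y ∉ Y₀, IsOpen ({y} : Set Y)) (h : WeaklyThetaRefinable Y₀) :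
    WeaklyThetaRefinable Y := by
  classical
  intro 𝒰 hU hcov
  obtain ⟨𝒱, v1, v2⟩ := h ((fun U => (Subtype.val ⁻¹' U : Set Y₀)) '' 𝒰) (by
    rintro _ ⟨U, hU', rfl⟩
    exact (hU U hU').preimage continuous_subtype_val) (eq_univ_of_forall fun x => by
    obtain ⟨U, h1, h2⟩ : x.1 ∈ ⋃₀ 𝒰 := hcov ▸ mem_univ _
    exact ⟨_, ⟨U, h1, rfl⟩, h2⟩)
  have e1 : ∀ V : Set Y₀, ∃ G : Set Y, (∃ n, V ∈ 𝒱 n) → IsOpen G ∧ (∃ U ∈ 𝒰, G ⊆ U) ∧
      ∀ y : Y₀, y.1 ∈ G ↔ y ∈ V := by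
    intro V
    by_cases hV : ∃ n, V ∈ 𝒱 n
    · obtain ⟨n, hn⟩ := hV
      obtain ⟨hVo, _, ⟨U, hU', rfl⟩, hVU⟩ := v1 n V hn
      obtain ⟨G, hG, rfl⟩ := isOpen_induced_iff.1 hVo
      refine ⟨G ∩ U, fun _ => ⟨hG.inter (hU U hU'), ⟨U, hU', inter_subset_right⟩, fun y => ?_⟩⟩
      exact ⟨fun h => h.1, fun h => ⟨h, hVU h⟩⟩
    · exact ⟨∅, fun h => absurd h hV⟩
  choose G hG using e1
  refine ⟨fun n => Nat.casesOn n ((fun y => ({y} : Set Y)) '' Y₀ᶜ) (fun n => G '' 𝒱 n), ?_,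
    fun y => ?_⟩
  · rintro (_ | n) V hV
    · obtain ⟨y, hy, rfl⟩ := hV
      obtain ⟨U, h1, h2⟩ : y ∈ ⋃₀ 𝒰 := hcov ▸ mem_univ _
      exact ⟨hd y hy, U, h1, singleton_subset_iff.2 h2⟩
    · obtain ⟨V, hV, rfl⟩ := hV
      exact ⟨(hG V ⟨n, hV⟩).1, (hG V ⟨n, hV⟩).2.1⟩
  · by_cases hy : y ∈ Y₀
    · obtain ⟨n, ⟨V, hV, hyV⟩, hfin⟩ := v2 ⟨y, hy⟩
      refine ⟨n + 1, ⟨G V, ⟨V, hV, rfl⟩, ((hG V ⟨n, hV⟩).2.2 ⟨y, hy⟩).2 hyV⟩,
        (hfin.image G).subset ?_⟩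
      rintro _ ⟨⟨V', hV', rfl⟩, h2⟩
      exact ⟨V', ⟨hV', ((hG V' ⟨n, hV'⟩).2.2 ⟨y, hy⟩).1 h2⟩, rfl⟩
    · refine ⟨0, ⟨{y}, ⟨y, hy, rfl⟩, rfl⟩, (finite_singleton {y}).subset ?_⟩
      rintro _ ⟨⟨z, -, rfl⟩, h2⟩
      rw [mem_singleton_iff.1 h2]
      rfl

theorem of_inner_compact {X : Type u} {Y : Type v} [TopologicalSpace X] [TopologicalSpace Y]
    (f : X → Y) (hX : WeaklyThetaRefinable X) (hf : Continuous f) (hs : Function.Surjective f)
    (hcl : IsClosedMap f) (hK : ∀ y, IsCompact (f ⁻¹' {y} \ interior (f ⁻¹' {y}))) :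
    WeaklyThetaRefinable Y := by
  obtain ⟨X₀, hX₀m⟩ : ∃ X₀ : Set X, ∀ x, x ∈ X₀ ↔ x ∉ interior (f ⁻¹' {f x}) :=
    ⟨{x | x ∉ interior (f ⁻¹' {f x})}, fun _ => Iff.rfl⟩
  have hX₀ : IsClosed X₀ := by
    have : X₀ = (⋃ y, interior (f ⁻¹' {y}))ᶜ := by
      ext x
      rw [hX₀m, mem_compl_iff, mem_iUnion, not_iff_not]
      refine ⟨fun h => ⟨_, h⟩, ?_⟩
      rintro ⟨y, hy⟩
      have h1 : x ∈ f ⁻¹' {y} := interior_subset hy
      rw [show f x = y from h1]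
      exact hy
    rw [this]
    exact (isOpen_iUnion fun y => isOpen_interior).isClosed_compl
  refine of_discrete (Y₀ := f '' X₀) (fun y hy => ?_) ?_
  · rw [← (hcl.isQuotientMap hf hs).isOpen_preimage, ← interior_eq_iff_isOpen]
    refine interior_subset.antisymm fun x hx => ?_
    by_contra h
    refine hy ⟨x, (hX₀m x).2 ?_, hx⟩
    rwa [show f x = y from hx]
  · have hemb := hX₀.isClosedEmbedding_subtypeVal
    let f₀ : X₀ → f '' X₀ := fun x => ⟨f x.1, mem_image_of_mem f x.2⟩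
    refine Pool.Agent.H82.WTheta.perfect f₀ ((hf.comp continuous_subtype_val).subtype_mk _) ?_ ?_ ?_
      (closed_sub hX hX₀)
    · rintro ⟨_, x, hx, rfl⟩
      exact ⟨⟨x, hx⟩, rfl⟩
    · intro C hC
      refine isClosed_induced_iff.2 ⟨_, (hcl.comp hemb.isClosedMap) C hC, ?_⟩
      ext y
      constructor
      · rintro ⟨x, hx, h⟩
        exact ⟨x, hx, Subtype.ext h⟩
      · rintro ⟨x, hx, rfl⟩
        exact ⟨x, hx, rfl⟩
    · rintro ⟨y, hy⟩
      have : f₀ ⁻¹' {⟨y, hy⟩} = Subtype.val ⁻¹' (f ⁻¹' {y} \ interior (f ⁻¹' {y})) := by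
        ext x
        simp only [f₀, mem_preimage, mem_singleton_iff, Subtype.mk.injEq, Set.mem_sdiff]
        refine ⟨fun h => ⟨h, ?_⟩, fun h => h.1⟩
        rw [← h]
        exact (hX₀m _).1 x.2
      rw [this]
      exact hemb.isCompact_preimage (hK y)

theorem of_frontier_cc {X : Type u} {Y : Type v} [TopologicalSpace X] [TopologicalSpace Y]
    [T1Space Y] (f : X → Y) (hX : WeaklyThetaRefinable X) (hf : Continuous f)
    (hs : Function.Surjective f) (hcl : IsClosedMap f)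
    (hK : ∀ y, IsCountablyCompact (frontier (f ⁻¹' {y}))) : WeaklyThetaRefinable Y := by
  refine of_inner_compact f hX hf hs hcl fun y => ?_
  rw [← (isClosed_singleton.preimage hf).frontier_eq]
  exact compact_of_cc hX isClosed_frontier (hK y)

/-- `y` is a q-point. -/
def IsQPoint {Y : Type v} [TopologicalSpace Y] (y : Y) : Prop :=
  ∃ N : ℕ → Set Y, (∀ n, N n ∈ 𝓝 y) ∧
    ∀ u : ℕ → Y, (∀ n, u n ∈ N n) → ∃ p, MapClusterPt p atTop u

theorem frontier_cc {X : Type u} {Y : Type v} [TopologicalSpace X] [TopologicalSpace Y]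
    [NormalSpace X] [T1Space X] [T1Space Y] (f : X → Y) (hf : Continuous f)
    (hcl : IsClosedMap f) (y : Y) (hq : IsQPoint y) :
    IsCountablyCompact (frontier (f ⁻¹' {y})) := by
  classical
  obtain ⟨M, hM, hMq⟩ := hq
  have hfc : IsClosed (f ⁻¹' {y}) := isClosed_singleton.preimage hf
  rw [isCountablyCompact_iff_infinite_subset_has_accPt]
  intro B hB hBinf
  by_contra hcon
  push Not at hcon
  have hno : ∀ p, ¬ AccPt p (𝓟 B) := by
    intro p hp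
    refine hcon p ?_ hp
    exact closure_minimal hB isClosed_frontier (mem_closure_iff_clusterPt.2 hp.clusterPt)
  let a := hBinf.natEmbedding
  have hDB : range (fun n => (a n).1) ⊆ B := by
    rintro _ ⟨n, rfl⟩
    exact (a n).2
  set D : Set X := range (fun n => (a n).1) with hD
  have hnoD : ∀ p, ¬ AccPt p (𝓟 D) := fun p hp => hno p (hp.mono (principal_mono.2 hDB))
  have hDc : IsClosed D := by
    rw [isClosed_iff_derivedSet_subset]
    intro p hp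
    exact absurd hp (hnoD p)
  have hdisc : DiscreteTopology D := by
    rw [discreteTopology_subtype_iff]
    intro x _
    exact not_neBot.1 (hnoD x)
  have hax : ∀ d : D, ∃ n, (a n).1 = d.1 := fun d => d.2
  choose nn hnn using hax
  obtain ⟨F, hF⟩ := ContinuousMap.exists_restrict_eq hDc
    (⟨fun d => (nn d : ℝ), continuous_of_discreteTopology⟩ : C(D, ℝ))
  have hFa : ∀ n, F (a n).1 = n := by
    intro n
    have h1 := congrArg (fun g => g ⟨(a n).1, ⟨n, rfl⟩⟩) hF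
    simp only [ContinuousMap.restrict_apply, ContinuousMap.coe_mk] at h1
    have h2 : nn ⟨(a n).1, ⟨n, rfl⟩⟩ = n := a.injective (Subtype.ext (hnn ⟨(a n).1, ⟨n, rfl⟩⟩))
    rw [h1, h2]
  have step : ∀ s : Finset (ℕ × X), (∀ q ∈ s, f q.2 ≠ y ∧ (q.1 : ℝ) - 1 < F q.2 ∧
      ∀ k ≤ q.1, f q.2 ∈ M k) → ∃ q : ℕ × X, (f q.2 ≠ y ∧ (q.1 : ℝ) - 1 < F q.2 ∧
      ∀ k ≤ q.1, f q.2 ∈ M k) ∧ ∀ r ∈ s, r.1 < q.1 ∧ f r.2 ≠ f q.2 := by
    intro s hs
    obtain ⟨n, hn⟩ : ∃ n, ∀ r ∈ s, r.1 < n :=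
      ⟨s.sup Prod.fst + 1, fun r hr => Nat.lt_succ_of_le (Finset.le_sup (f := Prod.fst) hr)⟩
    let G : Set X := {x | (n : ℝ) - 1 < F x} ∩ f ⁻¹' (interior (⋂ k ∈ Finset.range (n + 1), M k)) ∩
      f ⁻¹' ((fun r : ℕ × X => f r.2) '' s)ᶜ
    have hGo : IsOpen G := ((isOpen_lt continuous_const F.continuous).inter
      (isOpen_interior.preimage hf)).inter
      ((s.finite_toSet.image _).isClosed.isOpen_compl.preimage hf)
    have hyf : f (a n).1 = y := hfc.frontier_subset (hB (a n).2)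
    have hGa : (a n).1 ∈ G := by
      refine ⟨⟨?_, ?_⟩, ?_⟩
      · simp only [mem_ofPred_eq, hFa]
        linarith
      · rw [mem_preimage, hyf, mem_interior_iff_mem_nhds, biInter_finset_mem]
        exact fun k _ => hM k
      · rintro ⟨r, hr, h⟩
        exact (hs r hr).1 (h.trans hyf)
    have hnot : ¬ G ⊆ f ⁻¹' {y} := fun h =>
      ((hfc.frontier_eq ▸ hB (a n).2 : (a n).1 ∈ f ⁻¹' {y} \ interior (f ⁻¹' {y}))).2
        (interior_maximal h hGo hGa)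
    obtain ⟨z, hz, hzy⟩ := not_subset.1 hnot
    refine ⟨(n, z), ⟨hzy, hz.1.1, fun k hk => ?_⟩, fun r hr => ⟨hn r hr, fun h => hz.2 ⟨r, hr, h⟩⟩⟩
    exact mem_iInter₂.1 (interior_subset hz.1.2) k (Finset.mem_range.2 (Nat.lt_succ_of_le hk))
  obtain ⟨q, hq1, hq2⟩ := exists_seq_of_forall_finset_exists _ _ step
  have hmono : StrictMono fun k => (q k).1 := strictMono_nat_of_lt_succ fun k =>
    (hq2 k (k + 1) k.lt_succ_self).1
  obtain ⟨p, hp⟩ := hMq (fun k => f (q k).2) fun k => (hq1 k).2.2 k (hmono.id_le k)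
  have hinj : ∀ k l, k ≠ l → f (q k).2 ≠ f (q l).2 := fun k l h =>
    h.lt_or_gt.elim (fun h => (hq2 k l h).2) fun h => (hq2 l k h).2.symm
  have hloc : LocallyFinite fun k : {k : ℕ // f (q k).2 ≠ p} => ({(q k.1).2} : Set X) := by
    intro x
    refine ⟨{z | F z < F x + 1}, (isOpen_lt F.continuous continuous_const).mem_nhds
      (show F x < F x + 1 by linarith), ?_⟩
    obtain ⟨m, hm⟩ := exists_nat_gt (F x + 2)
    refine Set.Finite.subset (s := {k : {k : ℕ // f (q k).2 ≠ p} | k.1 < m})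
      ((finite_lt_nat m).preimage (Subtype.val_injective.injOn)) ?_
    rintro ⟨k, hk⟩ ⟨z, hz, hz'⟩
    rw [mem_singleton_iff.1 hz] at hz'
    have h1 := (hq1 k).2.1
    have h2 : (k : ℝ) ≤ (q k).1 := by exact_mod_cast hmono.id_le k
    have h3 : (k : ℝ) < m := by
      have : F (q k).2 < F x + 1 := hz'
      linarith
    exact_mod_cast h3
  have hZ : IsClosed (f '' ⋃ k : {k : ℕ // f (q k).2 ≠ p}, ({(q k.1).2} : Set X)) :=
    hcl _ (hloc.isClosed_iUnion fun k => isClosed_singleton)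
  have hpZ : p ∉ f '' ⋃ k : {k : ℕ // f (q k).2 ≠ p}, ({(q k.1).2} : Set X) := by
    rintro ⟨z, hz, hzp⟩
    obtain ⟨k, hk⟩ := mem_iUnion.1 hz
    rw [mem_singleton_iff.1 hk] at hzp
    exact k.2 hzp
  have hfr := mapClusterPt_iff_frequently.1 hp _ (hZ.isOpen_compl.mem_nhds hpZ)
  have hall : ∀ k, f (q k).2 ∈ (f '' ⋃ k : {k : ℕ // f (q k).2 ≠ p}, ({(q k.1).2} : Set X))ᶜ →
      f (q k).2 = p := fun k hk => by
    by_contra h
    exact hk ⟨_, mem_iUnion.2 ⟨⟨k, h⟩, rfl⟩, rfl⟩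
  obtain ⟨k, -, hk⟩ := frequently_atTop.1 hfr 0
  obtain ⟨l, hl, hl'⟩ := frequently_atTop.1 hfr (k + 1)
  exact hinj k l (by omega) ((hall k hk).trans (hall l hl').symm)

theorem of_normal_q {X : Type u} {Y : Type v} [TopologicalSpace X] [TopologicalSpace Y]
    [NormalSpace X] [T1Space X] (f : X → Y) (hX : WeaklyThetaRefinable X) (hf : Continuous f)
    (hs : Function.Surjective f) (hcl : IsClosedMap f) (hq : ∀ y : Y, IsQPoint y) :
    WeaklyThetaRefinable Y := by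
  have : T1Space Y := ⟨fun y => by
    obtain ⟨x, rfl⟩ := hs y
    rw [← image_singleton]
    exact hcl _ isClosed_singleton⟩
  exact of_frontier_cc f hX hf hs hcl fun y => frontier_cc f hf hcl y (hq y)

theorem IsQPoint.of_firstCountable {Y : Type v} [TopologicalSpace Y] [FirstCountableTopology Y]
    (y : Y) : IsQPoint y := by
  obtain ⟨N, hN⟩ := (𝓝 y).exists_antitone_basis
  refine ⟨N, fun n => hN.toHasBasis.mem_of_mem trivial, fun u hu => ⟨y, ?_⟩⟩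
  exact (hN.tendsto hu).mapClusterPt

theorem IsQPoint.of_countablyCompact {Y : Type v} [TopologicalSpace Y] {y : Y} {K : Set Y}
    (hK : K ∈ 𝓝 y) (hc : IsCountablyCompact K) : IsQPoint y :=
  ⟨fun _ => K, fun _ => hK, fun u hu =>
    let ⟨p, _, hp⟩ := hc.seq_clusterPt u (Eventually.of_forall hu)
    ⟨p, hp⟩⟩

end Pool.Agent.KS6_21.WTR
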